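import Mathlib
import Pool.Agent.Y203.QC.Phys

/-! Job 1069 (QC-SVAL, owner helper203): conservation of the value, the first `N` cells. -/

set_option autoImplicit false

open Set Filter Topology MeasureTheory

namespace Pool.Agent.Y203.QC

open Pool.Agent.Aub (mm lam Stk dt stp Sc S1 S2 Qx gT gt cT ct hC hX Dg Ty stg rho mu posn peel cE cF
  DD rb subTy subP subC sub broken Clamp Ix Zs stk reg mkz Wt f0 f1 f4 f6 g0 g1 M0 M4 M6 N1 tyj pj
  Cell sT Dle vb tyn Jx EE mkp pz py pth LL psi Rho Realz Th yo PerField IsFlow action hT lat IsCurve)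

/-! ### digits stay in range -/

lemma SVal_low_le {x y : ℕ} (hx : x ≤ mm) (hy : y ≤ mm) : (low x y).1 ≤ mm ∧ (low x y).2 ≤ mm := by
  unfold low
  unfold mm bb at *
  split_ifs <;> constructor <;> simp only <;> omega

lemma SVal_carry_le {D : Fin 3 → ℕ} {y : ℕ} (hD : ∀ k, D k ≤ mm) (hy : y ≤ mm) (k : Fin 3) :
    carry D y k ≤ mm := by
  have h1 := SVal_low_le (hD 1) hy
  have h2 := SVal_low_le (hD 0) h1.1
  unfold carry
  fin_cases k
  · simpa using h2.1
  · simpa using h2.2
  · simpa using h1.2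

lemma SVal_y_le {a e : Cell} (ha : ∀ k, a.D k ≤ mm) : a.D 2 + tt a e - uu a e ≤ mm := by
  have h2 := ha 2
  by_cases h : a.b = false ∧ e.D 0 = mm ∧ a.D 2 < mm
  · have e1 : tt a e = 1 := if_pos h
    rw [e1]; have := h.2.2; omega
  · have e1 : tt a e = 0 := if_neg h
    rw [e1]; omega

lemma SVal_newc_le {a e : Cell} {r : Bool} (ha : ∀ k, a.D k ≤ mm) (k : Fin 3) :
    (newc r a e).D k ≤ mm := by
  cases r
  · exact SVal_carry_le ha (SVal_y_le ha) k
  · simp [newc]

lemma SVal_zc_le (k : Fin 3) : zc.D k ≤ mm := by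
  simp [zc, mm]

lemma SVal_setD_le {x : ℕ} (hx : x ≤ mm) {l : List Cell} (hD : Dle l) : Dle (setD x l) := by
  cases l with
  | nil => exact hD
  | cons a tl =>
    intro c hc k
    simp only [setD, List.mem_cons] at hc
    rcases hc with rfl | hc
    · by_cases hk : k = 0
      · subst hk; simpa using hx
      · simp only [Function.update_of_ne hk]
        exact hD a (by simp) k
    · exact hD c (by simp [hc]) k

lemma SVal_upd_le (a : Cell) {l : List Cell} (hD : Dle l) : Dle (upd a l) := by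
  unfold upd
  split_ifs
  · exact SVal_setD_le (by simp [mm]) hD
  · exact SVal_setD_le (by simp [mm, bb]) hD
  · exact hD

lemma SVal_stE_le (r : Bool) {l : List Cell} (hD : Dle l) : Dle (stE r l) := by
  cases l with
  | nil =>
    intro c hc k
    simp only [stE, List.mem_singleton] at hc
    subst hc
    exact SVal_newc_le SVal_zc_le k
  | cons a tl =>
    intro c hc k
    simp only [stE, List.mem_cons] at hc
    rcases hc with rfl | hc
    · exact SVal_newc_le (fun k => hD a (by simp) k) k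
    · exact SVal_upd_le a (fun c hc k => hD c (by simp [hc]) k) c hc k

lemma SVal_stF_le {l : List Cell} (hD : Dle l) : Dle (stF l) := by
  induction l with
  | nil =>
    intro c hc k
    simp only [stF, List.mem_cons] at hc
    rcases hc with rfl | hc
    · exact SVal_zc_le k
    · exact SVal_stE_le false (l := []) (fun c hc => by simp at hc) c hc k
  | cons a tl ih =>
    have htl : Dle tl := fun c hc k => hD c (by simp [hc]) k
    intro c hc k
    simp only [stF, List.mem_cons] at hc
    rcases hc with rfl | hc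
    · exact hD c (by simp) k
    · cases hb : a.b
      · rw [hb] at hc; simp only [Bool.false_eq_true, if_false] at hc
        exact SVal_stE_le false htl c hc k
      · rw [hb] at hc; simp only [if_true] at hc
        exact ih htl c hc k

theorem st_Dle (ty : Ty) (r : Bool) (l : List Cell) (hD : Dle l) : Dle (st ty r l) := by
  cases ty
  · exact SVal_stE_le r hD
  · exact SVal_stF_le hD

/-! ### value -/

lemma SVal_low (x y : ℕ) :
    (bb : ℤ) * ((low x y).1 : ℤ) + ((low x y).2 : ℤ) = (bb : ℤ) * x + y := by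
  unfold low
  unfold mm bb at *
  split_ifs with h1 h2
  · simp only; push_cast; omega
  · simp only; push_cast; omega
  · rfl

/-- integer value of three digits -/
def SVal_V (D : Fin 3 → ℕ) : ℤ := (bb : ℤ) ^ 2 * D 0 + (bb : ℤ) * D 1 + D 2

lemma SVal_Vz (D : Fin 3 → ℕ) : Vz (fun k => (D k : ℤ)) = ((SVal_V D : ℤ) : ℝ) := by
  unfold Vz SVal_V; push_cast; ring

lemma SVal_carry (D : Fin 3 → ℕ) (y : ℕ) :
    SVal_V (carry D y) = (bb : ℤ) ^ 2 * D 0 + (bb : ℤ) * D 1 + y := by
  have h1 := SVal_low (D 1) y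
  have h2 := SVal_low (D 0) (low (D 1) y).1
  unfold SVal_V carry
  simp only [Matrix.cons_val_zero, Matrix.cons_val_one, Matrix.cons_val]
  calc (bb : ℤ) ^ 2 * ((low (D 0) (low (D 1) y).1).1 : ℤ) +
      (bb : ℤ) * ((low (D 0) (low (D 1) y).1).2 : ℤ) + ((low (D 1) y).2 : ℤ)
      = (bb : ℤ) * ((bb : ℤ) * ((low (D 0) (low (D 1) y).1).1 : ℤ) +
        ((low (D 0) (low (D 1) y).1).2 : ℤ)) + ((low (D 1) y).2 : ℤ) := by ring
    _ = (bb : ℤ) * ((bb : ℤ) * D 0 + ((low (D 1) y).1 : ℤ)) + ((low (D 1) y).2 : ℤ) := by rw [h2]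
    _ = (bb : ℤ) ^ 2 * D 0 + ((bb : ℤ) * ((low (D 1) y).1 : ℤ) + ((low (D 1) y).2 : ℤ)) := by ring
    _ = _ := by rw [h1]; ring

lemma SVal_MM : MM = (bb : ℝ) ^ 3 := by unfold MM bb; norm_num

lemma SVal_MM_pos : (0 : ℝ) < MM := by unfold MM; norm_num

lemma SVal_v0 : ((bb : ℝ) ^ 2 + bb + 1 + v0) / MM = v0 := by
  unfold v0; unfold MM bb; norm_num

lemma SVal_v0' : (bb : ℝ) ^ 2 + bb + 1 + v0 = MM * v0 := by
  have := SVal_v0
  rw [div_eq_iff SVal_MM_pos.ne'] at this
  rw [this]; ring

lemma SVal_v0_bd : 0 < v0 ∧ v0 < 1 := by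
  unfold v0 bb; norm_num

lemma SVal_zcV : SVal_V zc.D = (bb : ℤ) ^ 2 + bb + 1 := by
  unfold SVal_V zc; simp

lemma SVal_hd (l : List Cell) : val l = ((SVal_V (hd l).D : ℝ) + val l.tail) / MM := by
  cases l with
  | nil =>
    simp only [hd, List.tail_nil, val]
    rw [SVal_zcV]; push_cast; exact SVal_v0.symm
  | cons a tl =>
    simp only [hd, List.tail_cons, val]
    rw [SVal_Vz]

lemma SVal_cons (a : Cell) (tl : List Cell) : val (a :: tl) = ((SVal_V a.D : ℝ) + val tl) / MM := by
  simp only [val]; rw [SVal_Vz]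

lemma SVal_setD (x : ℕ) (l : List Cell) (hl : l ≠ []) :
    val (setD x l) = val l + (bb : ℝ) ^ 2 * ((x : ℝ) - ((hd l).D 0 : ℝ)) / MM := by
  cases l with
  | nil => exact absurd rfl hl
  | cons a tl =>
    simp only [setD, hd]
    rw [SVal_cons, SVal_cons]
    unfold SVal_V
    simp only [Function.update_self, Function.update_of_ne (show (1 : Fin 3) ≠ 0 by decide),
      Function.update_of_ne (show (2 : Fin 3) ≠ 0 by decide)]
    push_cast
    have := SVal_MM_pos
    field_simp
    ring

lemma SVal_upd (a : Cell) (tl : List Cell) :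
    val (upd a tl) = val tl - (tt a (hd tl) : ℝ) + (uu a (hd tl) : ℝ) ∧
    ((a.D 2 + tt a (hd tl) - uu a (hd tl) : ℕ) : ℤ) = a.D 2 + tt a (hd tl) - uu a (hd tl) := by
  by_cases h1 : a.b = false ∧ (hd tl).D 0 = mm ∧ a.D 2 < mm
  · have e1 : tt a (hd tl) = 1 := if_pos h1
    have e2 : uu a (hd tl) = 0 := if_neg (by
      rintro ⟨_, h, _⟩
      rw [h1.2.1] at h; simp [mm] at h)
    have hne : tl ≠ [] := by
      rintro rfl
      have := h1.2.1
      simp [hd, zc, mm] at this
    constructor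
    · unfold upd
      rw [if_pos e1, SVal_setD _ _ hne, h1.2.1, e1, e2]
      unfold MM bb mm
      norm_num
      ring
    · rw [e1, e2]; simp
  · have e1 : tt a (hd tl) = 0 := if_neg h1
    by_cases h2 : a.b = false ∧ (hd tl).D 0 = 0 ∧ 0 < a.D 2
    · have e2 : uu a (hd tl) = 1 := if_pos h2
      have hne : tl ≠ [] := by
        rintro rfl
        have := h2.2.1
        simp [hd, zc] at this
      constructor
      · unfold upd
        rw [if_neg (by rw [e1]; norm_num), if_pos e2, SVal_setD _ _ hne, h2.2.1, e1, e2]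
        unfold MM bb
        norm_num
      · rw [e1, e2]; have := h2.2.2; push_cast; omega
    · have e2 : uu a (hd tl) = 0 := if_neg h2
      constructor
      · unfold upd
        rw [if_neg (by rw [e1]; norm_num), if_neg (by rw [e2]; norm_num), e1, e2]
        simp
      · rw [e1, e2]; simp

lemma SVal_stE (l : List Cell) : val (stE false l) = val l := by
  cases l with
  | nil =>
    simp only [stE]
    have e1 : tt zc zc = 0 := by simp [tt, zc, mm]
    have e2 : uu zc zc = 0 := by simp [uu, zc]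
    rw [SVal_cons]
    have e3 : SVal_V (newc false zc zc).D = (bb : ℤ) ^ 2 + bb + 1 := by
      simp only [newc, Bool.false_eq_true, if_false]
      rw [SVal_carry, e1, e2]
      simp [zc]
    rw [e3]; push_cast; simp only [val]; exact SVal_v0
  | cons a tl =>
    simp only [stE]
    obtain ⟨h1, h2⟩ := SVal_upd a tl
    rw [SVal_cons, SVal_cons, h1]
    have e3 : SVal_V (newc false a (hd tl)).D = SVal_V a.D + tt a (hd tl) - uu a (hd tl) := by
      simp only [newc, Bool.false_eq_true, if_false]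
      rw [SVal_carry, h2]
      unfold SVal_V
      ring
    rw [e3]; push_cast; ring

lemma SVal_stF (l : List Cell) : val (stF l) = val l := by
  induction l with
  | nil =>
    simp only [stF]
    rw [SVal_cons, SVal_stE, SVal_zcV]
    simp only [val]
    push_cast; exact SVal_v0
  | cons a tl ih =>
    simp only [stF]
    rw [SVal_cons, SVal_cons]
    cases hb : a.b
    · simp only [Bool.false_eq_true, if_false]; rw [SVal_stE]
    · simp only [if_true]; rw [ih]

theorem st_value (ty : Ty) (l : List Cell) (_hD : Dle l) : val (st ty false l) = val l := by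
  cases ty
  · exact SVal_stE l
  · exact SVal_stF l

theorem run_value (n : ℕ) (ty : Ty) (l : List Cell) (hD : Dle l) :
    Dle (run n (fun _ => false) ty l) ∧ val (run n (fun _ => false) ty l) = val l := by
  induction n generalizing ty l with
  | zero => exact ⟨hD, rfl⟩
  | succ n ih =>
    simp only [run]
    have h1 := ih ty.other (st ty false l) (st_Dle ty false l hD)
    exact ⟨h1.1, h1.2.trans (st_value ty l hD)⟩

lemma SVal_cl_zero (l : List Cell) : cl l 0 = hd l := rfl

lemma SVal_cl_succ (l : List Cell) (i : ℕ) : cl l (i + 1) = cl l.tail i := by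
  unfold cl
  cases l with
  | nil => simp
  | cons a tl => simp

lemma SVal_tail_good {l : List Cell}
    (hg : ∀ (i : ℕ) (k : Fin 3), 0 < (cl l i).D k ∧ (cl l i).D k < mm) :
    ∀ (i : ℕ) (k : Fin 3), 0 < (cl l.tail i).D k ∧ (cl l.tail i).D k < mm := by
  intro i k
  rw [← SVal_cl_succ]
  exact hg (i + 1) k

lemma SVal_V_bd {D : Fin 3 → ℕ} (h : ∀ k, 0 < D k ∧ D k < mm) :
    (bb : ℝ) ^ 2 + bb + 1 ≤ (SVal_V D : ℝ) ∧ (SVal_V D : ℝ) ≤ MM + bb ^ 2 + bb := by
  have h0 := h 0
  have h1 := h 1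
  have h2 := h 2
  have e : (MM : ℝ) = ((68669157375 : ℤ) : ℝ) := by unfold MM; norm_num
  have k1 : (bb : ℤ) ^ 2 + bb + 1 ≤ SVal_V D := by
    unfold SVal_V; unfold bb; unfold mm at *; push_cast; omega
  have k2 : SVal_V D ≤ (68669157375 : ℤ) + bb ^ 2 + bb := by
    unfold SVal_V; unfold bb; unfold mm at *; push_cast; omega
  rw [e]
  exact ⟨by exact_mod_cast k1, by exact_mod_cast k2⟩

theorem val_mem (l : List Cell)
    (hg : ∀ (i : ℕ) (k : Fin 3), 0 < (cl l i).D k ∧ (cl l i).D k < mm) :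
    v0 ≤ val l ∧ val l < v0 + 1 := by
  induction l with
  | nil => simp only [val]; constructor <;> linarith
  | cons a tl ih =>
    have h1 := ih (SVal_tail_good hg)
    have h2 := SVal_V_bd (hg 0)
    rw [SVal_cl_zero] at h2
    simp only [hd] at h2
    rw [SVal_cons]
    have h3 := SVal_v0'
    have h4 := SVal_MM_pos
    constructor
    · rw [le_div_iff₀ h4]; linarith [h1.1, h2.1]
    · rw [div_lt_iff₀ h4]; nlinarith [h1.2, h2.2]

/-- the integer code of a cell -/
def SVal_c (D : Fin 3 → ℕ) : ℤ := SVal_V D - ((bb : ℤ) ^ 2 + bb + 1)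

/-- the code of the first `N` cells -/
def SVal_code : ℕ → List Cell → ℤ
  | 0, _ => 0
  | N + 1, l => SVal_c (hd l).D * (68669157375 : ℤ) ^ N + SVal_code N l.tail

lemma SVal_sub (l : List Cell) : val l - v0 = ((SVal_c (hd l).D : ℝ) + (val l.tail - v0)) / MM := by
  have h3 := SVal_v0'
  have h4 := SVal_MM_pos
  rw [SVal_hd l, eq_div_iff h4.ne']
  unfold SVal_c
  push_cast
  field_simp
  linarith

lemma SVal_MMi : ((68669157375 : ℤ) : ℝ) = MM := by unfold MM; norm_num

lemma SVal_scaled (N : ℕ) (l : List Cell) :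
    (val l - v0) * MM ^ N = (SVal_code N l : ℝ) + (val (l.drop N) - v0) := by
  induction N generalizing l with
  | zero => simp [SVal_code]
  | succ N ih =>
    have h4 := SVal_MM_pos
    have h5 := ih l.tail
    have e : l.drop (N + 1) = l.tail.drop N := by
      cases l <;> simp
    rw [e, SVal_sub l, pow_succ]
    simp only [SVal_code]
    push_cast
    rw [show ((68669157375 : ℝ)) = MM from rfl]
    field_simp
    linarith

lemma SVal_drop_good {l : List Cell}
    (hg : ∀ (i : ℕ) (k : Fin 3), 0 < (cl l i).D k ∧ (cl l i).D k < mm) (N : ℕ) :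
    ∀ (i : ℕ) (k : Fin 3), 0 < (cl (l.drop N) i).D k ∧ (cl (l.drop N) i).D k < mm := by
  intro i k
  have : cl (l.drop N) i = cl l (N + i) := by
    unfold cl; rw [List.drop_drop]
  rw [this]; exact hg _ k

lemma SVal_floor (N : ℕ) (l : List Cell)
    (hg : ∀ (i : ℕ) (k : Fin 3), 0 < (cl l i).D k ∧ (cl l i).D k < mm) :
    ⌊(val l - v0) * MM ^ N⌋ = SVal_code N l := by
  have h1 := val_mem (l.drop N) (SVal_drop_good hg N)
  rw [SVal_scaled, Int.floor_eq_iff]
  constructor <;> linarith [h1.1, h1.2]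

lemma SVal_trunc (N : ℕ) (l t : List Cell) :
    val (trunc N l ++ t) - v0 = ((SVal_code N l : ℝ) + (val t - v0)) / MM ^ N := by
  induction N generalizing l with
  | zero => simp [trunc, SVal_code]
  | succ N ih =>
    have h4 := SVal_MM_pos
    simp only [trunc, List.cons_append, SVal_code]
    rw [SVal_sub]
    simp only [hd, List.tail_cons]
    rw [ih l.tail]
    push_cast
    rw [show ((68669157375 : ℝ)) = MM from rfl, pow_succ]
    field_simp
    ring

theorem val_trunc (N : ℕ) (l t : List Cell)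
    (hg : ∀ (i : ℕ) (k : Fin 3), 0 < (cl l i).D k ∧ (cl l i).D k < mm) :
    val (trunc N l ++ t) =
      v0 + ((⌊(val l - v0) * MM ^ N⌋ : ℝ) + (val t - v0)) / MM ^ N := by
  rw [SVal_floor N l hg]
  have := SVal_trunc N l t
  linarith

lemma SVal_code_bd (N : ℕ) (l : List Cell)
    (hg : ∀ (i : ℕ) (k : Fin 3), 0 < (cl l i).D k ∧ (cl l i).D k < mm) :
    0 ≤ SVal_code N l ∧ SVal_code N l < (68669157375 : ℤ) ^ N := by
  have h1 := val_mem l hg
  have h4 : (0 : ℝ) < MM ^ N := pow_pos SVal_MM_pos N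
  rw [← SVal_floor N l hg]
  constructor
  · exact Int.floor_nonneg.2 (mul_nonneg (by linarith) h4.le)
  · rw [Int.floor_lt]
    push_cast
    rw [show ((68669157375 : ℝ)) = MM from rfl]
    nlinarith [h1.2]

lemma SVal_c_inj {D D' : Fin 3 → ℕ} (h : ∀ k, 0 < D k ∧ D k < mm) (h' : ∀ k, 0 < D' k ∧ D' k < mm)
    (e : SVal_c D = SVal_c D') : D = D' := by
  have h0 := h 0
  have h1 := h 1
  have h2 := h 2
  have h0' := h' 0
  have h1' := h' 1
  have h2' := h' 2
  unfold SVal_c SVal_V at e
  unfold mm at *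
  unfold bb at e
  push_cast at e
  funext k
  fin_cases k
  · show D 0 = D' 0
    omega
  · show D 1 = D' 1
    omega
  · show D 2 = D' 2
    omega

theorem trunc_of_val (N : ℕ) (l l' : List Cell)
    (hg : ∀ (i : ℕ) (k : Fin 3), 0 < (cl l i).D k ∧ (cl l i).D k < mm)
    (hg' : ∀ (i : ℕ) (k : Fin 3), 0 < (cl l' i).D k ∧ (cl l' i).D k < mm)
    (h : ⌊(val l - v0) * MM ^ N⌋ = ⌊(val l' - v0) * MM ^ N⌋) (i : ℕ) (hi : i < N) :
    (cl l i).D = (cl l' i).D := by
  rw [SVal_floor N l hg, SVal_floor N l' hg'] at h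
  induction N generalizing l l' i with
  | zero => omega
  | succ N ih =>
    simp only [SVal_code] at h
    have b1 := SVal_code_bd N l.tail (SVal_tail_good hg)
    have b2 := SVal_code_bd N l'.tail (SVal_tail_good hg')
    have hP : (0 : ℤ) < (68669157375 : ℤ) ^ N := by positivity
    have hc : SVal_c (hd l).D = SVal_c (hd l').D := by
      have e1 : (SVal_c (hd l).D * (68669157375 : ℤ) ^ N + SVal_code N l.tail) /
          (68669157375 : ℤ) ^ N = SVal_c (hd l).D := by
        rw [add_comm, Int.add_mul_ediv_right _ _ hP.ne', Int.ediv_eq_zero_of_lt b1.1 b1.2, zero_add]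
      have e2 : (SVal_c (hd l').D * (68669157375 : ℤ) ^ N + SVal_code N l'.tail) /
          (68669157375 : ℤ) ^ N = SVal_c (hd l').D := by
        rw [add_comm, Int.add_mul_ediv_right _ _ hP.ne', Int.ediv_eq_zero_of_lt b2.1 b2.2, zero_add]
      rw [← e1, ← e2, h]
    have ht : SVal_code N l.tail = SVal_code N l'.tail := by
      rw [hc] at h; linarith
    cases i with
    | zero =>
      rw [SVal_cl_zero, SVal_cl_zero]
      exact SVal_c_inj (hg 0) (hg' 0) hc
    | succ i =>
      rw [SVal_cl_succ, SVal_cl_succ]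
      exact ih l.tail l'.tail (SVal_tail_good hg) (SVal_tail_good hg') ht i (by omega)

lemma SVal_Ex_tail {l : List Cell} (hE : Ex 0 l) :
    ∀ (i : ℕ) (k : Fin 3), 0 < (cl l.tail i).D k ∧ (cl l.tail i).D k < mm := by
  intro i k
  rw [← SVal_cl_succ]
  rcases hE (i + 1) k with h | h
  · omega
  · exact h

theorem val_top (l : List Cell) (_hD : Dle l) (hE : Ex 0 l) (h : (hd l).D 0 = mm) :
    v0 + 1 ≤ val l := by
  have h1 := val_mem l.tail (SVal_Ex_tail hE)
  have h2 : 0 < (hd l).D 1 ∧ (hd l).D 1 < mm := by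
    rcases hE 0 1 with h | h
    · exact absurd h.1 (by decide)
    · exact h
  have h3 : 0 < (hd l).D 2 ∧ (hd l).D 2 < mm := by
    rcases hE 0 2 with h | h
    · exact absurd h.1 (by decide)
    · exact h
  rw [SVal_hd l, le_div_iff₀ SVal_MM_pos]
  have h4 : (68669157375 : ℤ) + (bb : ℤ) ^ 2 + bb + 1 ≤ SVal_V (hd l).D := by
    unfold SVal_V; rw [h]; unfold bb mm; push_cast; omega
  have h5 : MM + (bb : ℝ) ^ 2 + bb + 1 ≤ (SVal_V (hd l).D : ℝ) := by
    rw [← SVal_MMi]; exact_mod_cast h4
  have h6 := SVal_v0'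
  linarith [h1.1]

theorem val_bot (l : List Cell) (_hD : Dle l) (hE : Ex 0 l) (h : (hd l).D 0 = 0) :
    val l < v0 := by
  have h1 := val_mem l.tail (SVal_Ex_tail hE)
  have h2 : 0 < (hd l).D 1 ∧ (hd l).D 1 < mm := by
    rcases hE 0 1 with h | h
    · exact absurd h.1 (by decide)
    · exact h
  have h3 : 0 < (hd l).D 2 ∧ (hd l).D 2 < mm := by
    rcases hE 0 2 with h | h
    · exact absurd h.1 (by decide)
    · exact h
  rw [SVal_hd l, div_lt_iff₀ SVal_MM_pos]
  have h4 : SVal_V (hd l).D ≤ (bb : ℤ) ^ 2 + bb := by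
    unfold SVal_V; rw [h]; unfold mm at h2 h3; unfold bb; push_cast; omega
  have h5 : (SVal_V (hd l).D : ℝ) ≤ (bb : ℝ) ^ 2 + bb := by
    exact_mod_cast h4
  have h6 := SVal_v0'
  linarith [h1.2]

end Pool.Agent.Y203.QC
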